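import Pool.Agent.V5helper63.NP.Stm

set_option autoImplicit false

namespace Pool.Agent.V5helper44.NP

open Pool.Agent.V5helper63.NP (Eqn S_B0)

theorem t_B0 : Pool.Agent.V5helper63.NP.S_B0 := by
  intro k m p a b c d hp hp3 hm ha hc hb hd hN hle hE
  obtain ⟨n, rfl⟩ : ∃ n, m = n + 1 := ⟨m - 1, by omega⟩
  have hn : 2 ≤ n := by omega
  have hp' : (3 : ℤ) ≤ p := by exact_mod_cast hp3
  have hp0 : (0 : ℤ) < (p : ℤ) - 1 := by linarith
  have hN' : 2 * (p : ℤ) < 2 ^ (k + 1) := by exact_mod_cast hN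
  have hle' : (2 : ℤ) ^ c * (p : ℤ) ^ d ≤ 2 ^ a * (p : ℤ) ^ b := by exact_mod_cast hle
  have hQ : (9 : ℤ) ≤ (p : ℤ) ^ n := by
    calc (9 : ℤ) = 3 ^ 2 := by norm_num
      _ ≤ (p : ℤ) ^ 2 := by gcongr
      _ ≤ (p : ℤ) ^ n := pow_le_pow_right₀ (by linarith) hn
  have e1 : (p : ℤ) ^ (n + 1) = p * (p : ℤ) ^ n := by rw [pow_succ]; ring
  have e2 : (p : ℤ) ^ (n + 1 + 1) = p * (p * (p : ℤ) ^ n) := by rw [pow_succ, e1]; ring
  unfold Eqn at hE
  rw [e2, e1] at hE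
  have key : (2 : ℤ) ^ (k + 1) * (p : ℤ) ^ n < 4 * (2 ^ a * (p : ℤ) ^ b) := by
    by_contra h
    push Not at h
    have h1 := mul_le_mul_of_nonneg_left h hp0.le
    have h2 := mul_le_mul_of_nonneg_left hle' hp0.le
    have h3 : 0 ≤ (p : ℤ) * (p : ℤ) ^ n * (2 ^ (k + 1) - 2 * p) :=
      mul_nonneg (mul_nonneg (by linarith) (by linarith)) (by linarith)
    have h4 : 0 ≤ (2 : ℤ) ^ (k + 1) * ((p : ℤ) ^ n - 2) := mul_nonneg (by positivity) (by linarith)
    linarith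
  have hA : (2 : ℤ) * 2 ^ a ≤ 2 ^ (k + 1) := by
    rw [pow_succ, mul_comm]
    exact mul_le_mul_of_nonneg_right (pow_le_pow_right₀ (by norm_num) ha) (by norm_num)
  rcases Nat.lt_or_ge b n with hbn | hbn
  · exfalso
    have h5 : (p : ℤ) ^ b * p ≤ (p : ℤ) ^ n := by
      rw [← pow_succ]
      exact pow_le_pow_right₀ (by linarith) hbn
    have h6 : (2 : ℤ) * 2 ^ a * ((p : ℤ) ^ b * p) ≤ 2 ^ (k + 1) * (p : ℤ) ^ n :=
      mul_le_mul hA h5 (by positivity) (by positivity)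
    have h7 : (0 : ℤ) < 2 ^ a * (p : ℤ) ^ b := by
      have : (0 : ℤ) < p := by linarith
      positivity
    have h8 : 0 ≤ (2 : ℤ) ^ a * (p : ℤ) ^ b * ((p : ℤ) - 3) := mul_nonneg h7.le (by linarith)
    linarith
  · rcases Nat.lt_or_ge n b with h | h
    · left
      omega
    · right
      have hb' : b = n := by omega
      refine ⟨?_, by omega⟩
      subst hb'
      have h9 : (2 : ℤ) ^ (k + 1) < 4 * 2 ^ a := by
        by_contra h10
        push Not at h10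
        have h11 := mul_le_mul_of_nonneg_right h10 (show (0 : ℤ) ≤ (p : ℤ) ^ b by linarith)
        linarith
      have h12 : (2 : ℤ) ^ (k + 1) < 2 ^ (a + 2) := by
        rw [pow_add 2 a 2]
        linarith
      have h13 := (pow_lt_pow_iff_right₀ (by norm_num : (1 : ℤ) < 2)).1 h12
      omega

end Pool.Agent.V5helper44.NP
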